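import Pool.Agent.L0h37.KM.Stm
import Pool.Agent.N879.PZ.Kh
import Pool.Agent.N879.PZ.Lc
import Pool.Agent.N879.PZ.Lt

set_option autoImplicit false

/-! # Project KM, module OPM: the high part as an operator -/

namespace Pool.Agent.L0h95.KM

open Complex Filter Topology MeasureTheory Set
open Pool.Agent.Y969.GP (ff ht lam FR mB)
open Pool.Agent.N879.PZ (ee Wb)
open Pool.Agent.L0h37.KM
open Pool.Agent.N879.PZ.Khaux (ee_add ee_cont ee_norm int_mul int_sq exists_blk norm_sum_sq)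

noncomputable section

/-- one block -/
lemma blk {C1 C2 : ℝ} (hC1 : 0 < C1) (hC2 : 0 < C2)
    (hlc : ∀ (K : ℕ) (U : ℝ) (S : Finset (ℕ × ℕ)) (b : ℕ × ℕ → ℂ), 1 ≤ K → 1 ≤ U →
      S ⊆ FR K → ∫ c in (0 : ℝ)..U, ‖∑ p ∈ S, b p * ee c p‖ ^ 2 ≤ C1 * (U + K) * ∑ p ∈ S, ‖b p‖ ^ 2)
    (hlt : ∀ (K : ℕ) (T : ℝ) (S : Finset (ℕ × ℕ)), 1 ≤ K → 1 ≤ T → S ⊆ FR K →
      ∀ F : ℝ → ℂ, Wb 0 T F → ∑ p ∈ S, ‖∫ t in (0 : ℝ)..T, F t * ee t p‖ ^ 2 ≤
        C2 * ((T + K) * (1 + Real.log K)) * ∫ t in (0 : ℝ)..T, ‖F t‖ ^ 2)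
    {N X K : ℕ} {T V : ℝ} {S : Finset (ℕ × ℕ)} {b : ℕ × ℕ → ℂ} {R : ℝ → ℂ}
    (hN : 1 ≤ N) (hNK : N ≤ K) (hX : 1 ≤ X) (hT : 1 ≤ T) (hV : 0 ≤ V) (hS : S ⊆ FR X)
    (hb : ∀ p ∈ S, ‖b p‖ ≤ V * (√(ht p))⁻¹) (hSK : ∀ p ∈ S, (K : ℝ) < ht p ∧ ht p ≤ 2 * K)
    (hR : Wb 0 T R) :
    ∫ c in (0 : ℝ)..T, ‖∑ p ∈ S, (b p * ∫ t in (0 : ℝ)..T, R t * ee t p) * ee c p‖ ^ 2 ≤
      16 * (C1 * C2) * ((1 + Real.log X) * V ^ 2 * (T ^ 2 / N + X)) *
        ∫ t in (0 : ℝ)..T, ‖R t‖ ^ 2 := by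
  have hT0 : 0 ≤ T := by linarith
  have hP0 : 0 ≤ ∫ t in (0 : ℝ)..T, ‖R t‖ ^ 2 :=
    intervalIntegral.integral_nonneg hT0 fun t _ => by positivity
  set P := ∫ t in (0 : ℝ)..T, ‖R t‖ ^ 2 with hP
  have hX1 : (1 : ℝ) ≤ X := by exact_mod_cast hX
  have hN1 : (1 : ℝ) ≤ N := by exact_mod_cast hN
  have hNK' : (N : ℝ) ≤ K := by exact_mod_cast hNK
  have hK1 : (1 : ℝ) ≤ K := by linarith
  have hK0 : (0 : ℝ) < K := by linarith
  have hlX : 0 ≤ Real.log X := Real.log_nonneg hX1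
  rcases S.eq_empty_or_nonempty with rfl | ⟨p0, hp0⟩
  · simp only [Finset.sum_empty, norm_zero]
    have h1 : ∫ _c in (0 : ℝ)..T, (0 : ℝ) ^ 2 = 0 := by
      rw [intervalIntegral.integral_const]
      simp
    rw [h1]
    positivity
  have hKX : (K : ℝ) ≤ X := by
    have h1 := (hSK p0 hp0).1
    have h2 := (Pool.Agent.Y545.GP.mem_FR.1 (hS hp0)).2.2.1
    unfold ht at h1
    have h3 : (((p0.1 * p0.2 : ℕ)) : ℝ) ≤ X := by exact_mod_cast h2
    push_cast at h3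
    push_cast at h1
    linarith
  have hSF : S ⊆ FR (2 * K) := by
    intro p hp
    have h1 := Pool.Agent.Y545.GP.mem_FR.1 (hS hp)
    have h2 := (hSK p hp).2
    rw [Pool.Agent.Y545.GP.mem_FR]
    refine ⟨h1.1, h1.2.1, ?_, h1.2.2.2⟩
    unfold ht at h2
    exact_mod_cast h2
  have hKn : 1 ≤ 2 * K := by
    have : 1 ≤ K := hN.trans hNK
    omega
  have h1 := hlc (2 * K) T S (fun p => b p * ∫ t in (0 : ℝ)..T, R t * ee t p) hKn hT hSF
  refine h1.trans ?_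
  have h2 := hlt (2 * K) T S hKn hT hSF R hR
  have h2K : ((2 * K : ℕ) : ℝ) = 2 * K := by push_cast; ring
  rw [h2K] at h2 ⊢
  have h3 : ∑ p ∈ S, ‖b p * ∫ t in (0 : ℝ)..T, R t * ee t p‖ ^ 2 ≤
      V ^ 2 / K * ∑ p ∈ S, ‖∫ t in (0 : ℝ)..T, R t * ee t p‖ ^ 2 := by
    rw [Finset.mul_sum]
    refine Finset.sum_le_sum fun p hp => ?_
    rw [norm_mul, mul_pow]
    have h4 : ‖b p‖ ^ 2 ≤ V ^ 2 / K := by
      have h5 := (hSK p hp).1
      have h6 : 0 < ht p := by linarith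
      have h7 := pow_le_pow_left₀ (norm_nonneg _) (hb p hp) 2
      rw [mul_pow, inv_pow, Real.sq_sqrt h6.le] at h7
      refine h7.trans ?_
      rw [← div_eq_mul_inv]
      exact div_le_div_of_nonneg_left (by positivity) hK0 h5.le
    gcongr
  have hlog : 1 + Real.log (2 * K) ≤ 2 * (1 + Real.log X) := by
    rw [Real.log_mul (by norm_num) hK0.ne']
    have h4 : Real.log 2 ≤ 1 := by
      have := Real.log_le_sub_one_of_pos (show (0 : ℝ) < 2 by norm_num)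
      linarith
    have h5 := Real.log_le_log hK0 hKX
    linarith
  have hlog0 : 0 ≤ Real.log (2 * K) := Real.log_nonneg (by linarith)
  have har : (T + 2 * K) ^ 2 / K ≤ 8 * (T ^ 2 / N + X) := by
    have e1 : (T + 2 * K) ^ 2 ≤ 2 * T ^ 2 + 8 * (K : ℝ) ^ 2 := by nlinarith [sq_nonneg (T - 2 * K)]
    have e2 : (T + 2 * K) ^ 2 / K ≤ (2 * T ^ 2 + 8 * (K : ℝ) ^ 2) / K := by gcongr
    have e3 : (2 * T ^ 2 + 8 * (K : ℝ) ^ 2) / K = 2 * (T ^ 2 / K) + 8 * K := by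
      field_simp
    have e4 : T ^ 2 / K ≤ T ^ 2 / N := by gcongr
    have e5 : 0 ≤ T ^ 2 / N := by positivity
    rw [e3] at e2
    linarith
  calc C1 * (T + 2 * K) * ∑ p ∈ S, ‖b p * ∫ t in (0 : ℝ)..T, R t * ee t p‖ ^ 2
      ≤ C1 * (T + 2 * K) * (V ^ 2 / K * (C2 * ((T + 2 * K) * (1 + Real.log (2 * K))) * P)) := by
        have h4 : 0 ≤ V ^ 2 / (K : ℝ) := by positivity
        gcongr
        exact h3.trans (by gcongr)
    _ = C1 * C2 * ((T + 2 * K) ^ 2 / K) * (1 + Real.log (2 * K)) * V ^ 2 * P := by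
        field_simp
    _ ≤ C1 * C2 * (8 * (T ^ 2 / N + X)) * (2 * (1 + Real.log X)) * V ^ 2 * P := by
        gcongr
    _ = _ := by ring

theorem t_OPM : S_OPM := by
  classical
  obtain ⟨C1, hC1, hlc⟩ := Pool.Agent.N879.PZ.t_LC
  obtain ⟨C2, hC2, hlt0⟩ := Pool.Agent.N879.PZ.t_LT
  have hlt : ∀ (K : ℕ) (T : ℝ) (S : Finset (ℕ × ℕ)), 1 ≤ K → 1 ≤ T → S ⊆ FR K →
      ∀ F : ℝ → ℂ, Wb 0 T F → ∑ p ∈ S, ‖∫ t in (0 : ℝ)..T, F t * ee t p‖ ^ 2 ≤
        C2 * ((T + K) * (1 + Real.log K)) * ∫ t in (0 : ℝ)..T, ‖F t‖ ^ 2 := by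
    intro K T S hK hT hS F hF
    have h1 := (hlt0 K 0 T 1 S (fun _ _ => 1) (fun _ _ => 0) hK hT le_rfl (by linarith)
      zero_le_one hS (fun p _ x _ => hasDerivAt_const x 1) (fun p _ => continuousOn_const)
      (fun p _ x _ => by simp) (fun p _ => by simp)).2 F hF
    simpa using h1
  refine ⟨64 * (C1 * C2), by positivity, ?_⟩
  intro N X T V S b R hN hX hT hV hS hb hR
  have hT0 : 0 ≤ T := by linarith
  have hX1 : (1 : ℝ) ≤ X := by exact_mod_cast hX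
  have hlX : 0 ≤ Real.log X := Real.log_nonneg hX1
  have hP0 : 0 ≤ ∫ t in (0 : ℝ)..T, ‖R t‖ ^ 2 :=
    intervalIntegral.integral_nonneg hT0 fun t _ => by positivity
  set P := ∫ t in (0 : ℝ)..T, ‖R t‖ ^ 2 with hP
  set z : ℕ × ℕ → ℂ := fun p => b p * ∫ t in (0 : ℝ)..T, R t * ee t p with hz
  -- the inner integral
  have hin : ∀ c : ℝ, ∫ t in (0 : ℝ)..T, R t * ∑ p ∈ S, b p * ee (t + c) p =
      ∑ p ∈ S, z p * ee c p := by
    intro c
    have e1 : ∀ t, R t * ∑ p ∈ S, b p * ee (t + c) p =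
        ∑ p ∈ S, (b p * ee c p) * (R t * ee t p) := by
      intro t
      rw [Finset.mul_sum]
      refine Finset.sum_congr rfl fun p _ => ?_
      rw [ee_add]
      ring
    simp only [e1]
    rw [intervalIntegral.integral_finset_sum]
    · refine Finset.sum_congr rfl fun p _ => ?_
      rw [intervalIntegral.integral_const_mul, hz]
      ring
    · intro p _
      exact (int_mul hT0 hR (ee_cont p).continuousOn).const_mul _
  simp only [hin]
  -- the blocks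
  set r := Nat.log 2 X + 1 with hrd
  have hex : ∀ p ∈ S, ∃ i < r, N * 2 ^ i < p.1 * p.2 ∧ p.1 * p.2 ≤ N * 2 ^ (i + 1) := by
    intro p hp
    have h4 := Pool.Agent.Y545.GP.mem_FR.1 (hS hp)
    refine exists_blk r ?_ ?_
    · have h5 := Nat.lt_pow_succ_log_self (b := 2) (by norm_num) X
      have h6 : 2 ^ r ≤ N * 2 ^ r := Nat.le_mul_of_pos_left _ hN
      have h7 : 2 ^ (Nat.log 2 X).succ = 2 ^ r := rfl
      have h8 := h4.2.2.1
      omega
    · have h5 := (hb p hp).1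
      unfold ht at h5
      exact_mod_cast h5
  have hind : ∃ ind : ℕ × ℕ → ℕ, ∀ p ∈ S, ind p < r ∧ N * 2 ^ (ind p) < p.1 * p.2 ∧
      p.1 * p.2 ≤ N * 2 ^ (ind p + 1) := by
    refine ⟨fun p => if h : p ∈ S then (hex p h).choose else 0, fun p hp => ?_⟩
    simp only [hp, dif_pos]
    exact (hex p hp).choose_spec
  obtain ⟨ind, hind⟩ := hind
  have hN0 : (1 : ℝ) ≤ N := by exact_mod_cast hN
  set Bd := 16 * (C1 * C2) * ((1 + Real.log X) * V ^ 2 * (T ^ 2 / N + X)) * P with hBd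
  have hBd0 : 0 ≤ Bd := by positivity
  have h4 : ∀ c : ℝ, ‖∑ p ∈ S, z p * ee c p‖ ^ 2 ≤
      r * ∑ i ∈ Finset.range r, ‖∑ p ∈ S.filter (fun p => ind p = i), z p * ee c p‖ ^ 2 := by
    intro c
    rw [← Finset.sum_fiberwise_of_maps_to (s := S) (t := Finset.range r) (g := ind)
      (fun p hp => Finset.mem_range.2 (hind p hp).1)]
    have := norm_sum_sq (Finset.range r)
      (fun i => ∑ p ∈ S.filter (fun p => ind p = i), z p * ee c p)
    rwa [Finset.card_range] at this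
  have hc1 : ∀ S' : Finset (ℕ × ℕ), Continuous fun c => ‖∑ p ∈ S', z p * ee c p‖ ^ 2 := by
    intro S'
    refine (Continuous.norm ?_).pow 2
    exact continuous_finset_sum _ fun p _ => continuous_const.mul (ee_cont p)
  have h5 : ∀ i ∈ Finset.range r, ∫ c in (0 : ℝ)..T,
      ‖∑ p ∈ S.filter (fun p => ind p = i), z p * ee c p‖ ^ 2 ≤ Bd := by
    intro i _
    have hNK : N ≤ N * 2 ^ i := Nat.le_mul_of_pos_right _ (by positivity)
    refine blk hC1 hC2 hlc hlt hN hNK hX hT hV ((Finset.filter_subset _ _).trans hS)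
      (fun p hp => (hb p (Finset.mem_filter.1 hp).1).2) ?_ hR
    intro p hp
    rw [Finset.mem_filter] at hp
    obtain ⟨-, h6, h7⟩ := hind p hp.1
    rw [hp.2] at h6 h7
    unfold ht
    constructor
    · exact_mod_cast h6
    · have h8 : p.1 * p.2 ≤ 2 * (N * 2 ^ i) := by
        rw [pow_succ] at h7
        linarith
      exact_mod_cast h8
  have hr : (r : ℝ) ≤ 2 * (1 + Real.log X) := by
    have h1 : (2 : ℝ) ^ Nat.log 2 X ≤ X := by exact_mod_cast Nat.pow_log_le_self 2 (by omega)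
    have h2 := Real.log_le_log (by positivity) h1
    rw [Real.log_pow] at h2
    have h3 := Real.log_two_gt_d9
    have h6 : (0 : ℝ) ≤ Nat.log 2 X := Nat.cast_nonneg _
    rw [hrd]
    push_cast
    nlinarith
  calc ∫ c in (0 : ℝ)..T, ‖∑ p ∈ S, z p * ee c p‖ ^ 2
      ≤ ∫ c in (0 : ℝ)..T, r * ∑ i ∈ Finset.range r,
          ‖∑ p ∈ S.filter (fun p => ind p = i), z p * ee c p‖ ^ 2 := by
        refine intervalIntegral.integral_mono_on hT0 ?_ ?_ fun c _ => h4 c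
        · exact (hc1 S).intervalIntegrable _ _
        · exact (continuous_const.mul (continuous_finset_sum _ fun i _ => hc1 _)).intervalIntegrable _ _
    _ = r * ∑ i ∈ Finset.range r, ∫ c in (0 : ℝ)..T,
          ‖∑ p ∈ S.filter (fun p => ind p = i), z p * ee c p‖ ^ 2 := by
        rw [intervalIntegral.integral_const_mul, intervalIntegral.integral_finset_sum]
        intro i _
        exact (hc1 _).intervalIntegrable _ _
    _ ≤ r * ∑ _i ∈ Finset.range r, Bd := by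
        gcongr with i hi
        exact h5 i hi
    _ = (r : ℝ) ^ 2 * Bd := by
        rw [Finset.sum_const, Finset.card_range, nsmul_eq_mul]
        ring
    _ ≤ (2 * (1 + Real.log X)) ^ 2 * Bd := by gcongr
    _ = _ := by
        rw [hBd]
        ring

end

end Pool.Agent.L0h95.KM
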